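import Pool.Agent.Y738.PE.Stm

/-!
# Project PE: a finite net of block vectors
-/

set_option autoImplicit false

open scoped BigOperators ComplexConjugate Classical

noncomputable section

namespace Pool.Agent.Y585.PE

open Pool.Agent.Y738.PE

/-- the entries of a contraction are bounded by one -/
theorem entry_le {S : Type} [Fintype S] {B : S → S → ℂ} (hB : Contr B) (s t : S) :
    ‖B s t‖ ≤ 1 := by
  have h := hB (Pi.single t 1)
  have h1 : nrm (Pi.single t (1 : ℂ) : S → ℂ) = 1 := by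
    unfold nrm
    rw [Finset.sum_eq_single t]
    · simp
    · intro b _ hb
      simp [Pi.single_eq_of_ne hb]
    · intro h; exact absurd (Finset.mem_univ t) h
  have h2 : ∀ σ, (∑ τ, B σ τ * (Pi.single t (1 : ℂ) : S → ℂ) τ) = B σ t := by
    intro σ
    rw [Finset.sum_eq_single t]
    · simp
    · intro b _ hb
      simp [Pi.single_eq_of_ne hb]
    · intro h; exact absurd (Finset.mem_univ t) h
  rw [h1] at h
  unfold nrm at h
  simp only [h2] at h
  have h3 : ‖B s t‖ ^ 2 ≤ ∑ σ, ‖B σ t‖ ^ 2 :=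
    Finset.single_le_sum (f := fun σ => ‖B σ t‖ ^ 2) (fun _ _ => by positivity)
      (Finset.mem_univ s)
  have h4 : ‖B s t‖ ^ 2 ≤ 1 := h3.trans h
  nlinarith [norm_nonneg (B s t)]

theorem le_one_of_nrm {S : Type} [Fintype S] {f : S → ℂ} (hf : nrm f = 1) (s : S) :
    ‖f s‖ ≤ 1 := by
  unfold nrm at hf
  have h3 : ‖f s‖ ^ 2 ≤ ∑ σ, ‖f σ‖ ^ 2 :=
    Finset.single_le_sum (f := fun σ => ‖f σ‖ ^ 2) (fun _ _ => by positivity)
      (Finset.mem_univ s)
  rw [hf] at h3
  nlinarith [norm_nonneg (f s)]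

theorem card_box (d m r : ℕ) (h : r ≤ m) :
    (Fintype.card (BConf d r) : ℝ) ≤ ((d : ℝ) + 1) ^ (m * m) := by
  have h1 : Fintype.card (BConf d r) = d ^ (r * r) := by
    simp [BConf, Fintype.card_fun, Fintype.card_prod]
  rw [h1]
  push_cast
  calc (d : ℝ) ^ (r * r) ≤ ((d : ℝ) + 1) ^ (r * r) := by
        apply pow_le_pow_left₀ (by positivity); linarith
    _ ≤ ((d : ℝ) + 1) ^ (m * m) := by
        apply pow_le_pow_right₀
        · have : (0 : ℝ) ≤ d := by positivity
          linarith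
        · exact Nat.mul_le_mul h h

/-- the values are Lipschitz -/
theorem lip {d m r : ℕ} {Φ Φ' : BConf d m → ℂ} (h1 : nrm Φ = 1) (h2 : nrm Φ' = 1) {ε : ℝ}
    (hε : 0 ≤ ε) (hd : ∀ σ, ‖Φ σ - Φ' σ‖ ≤ ε) (p : ℕ × ℕ) (h : p.1 + r ≤ m ∧ p.2 + r ≤ m)
    (B : BConf d r → BConf d r → ℂ) (hB : Contr B) :
    ‖expecBlock Φ p h B - expecBlock Φ' p h B‖ ≤
      (Fintype.card (BConf d m) : ℝ) * (((d : ℝ) + 1) ^ (m * m) * (2 * ε)) := by
  unfold expecBlock
  rw [← Finset.sum_sub_distrib]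
  refine (norm_sum_le _ _).trans ?_
  have hc : ∀ σ ∈ (Finset.univ : Finset (BConf d m)),
      ‖(∑ τ : BConf d r, conj (Φ σ) * B (subBox σ p h) τ * Φ (subPut σ p τ)) -
        ∑ τ : BConf d r, conj (Φ' σ) * B (subBox σ p h) τ * Φ' (subPut σ p τ)‖ ≤
      ((d : ℝ) + 1) ^ (m * m) * (2 * ε) := by
    intro σ _
    rw [← Finset.sum_sub_distrib]
    refine (norm_sum_le _ _).trans ?_
    have hc2 : ∀ τ ∈ (Finset.univ : Finset (BConf d r)),
        ‖conj (Φ σ) * B (subBox σ p h) τ * Φ (subPut σ p τ) -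
          conj (Φ' σ) * B (subBox σ p h) τ * Φ' (subPut σ p τ)‖ ≤ 2 * ε := by
      intro τ _
      have e : conj (Φ σ) * B (subBox σ p h) τ * Φ (subPut σ p τ) -
          conj (Φ' σ) * B (subBox σ p h) τ * Φ' (subPut σ p τ) =
          conj (Φ σ - Φ' σ) * B (subBox σ p h) τ * Φ (subPut σ p τ) +
          conj (Φ' σ) * B (subBox σ p h) τ * (Φ (subPut σ p τ) - Φ' (subPut σ p τ)) := by
        rw [map_sub]; ring
      rw [e]
      refine (norm_add_le _ _).trans ?_
      rw [norm_mul, norm_mul, norm_mul, norm_mul, RCLike.norm_conj, RCLike.norm_conj]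
      have b1 := entry_le hB (subBox σ p h) τ
      have b2 := le_one_of_nrm h1 (subPut σ p τ)
      have b3 := le_one_of_nrm h2 σ
      have b4 := hd σ
      have b5 := hd (subPut σ p τ)
      have c1 : ‖Φ σ - Φ' σ‖ * ‖B (subBox σ p h) τ‖ * ‖Φ (subPut σ p τ)‖ ≤ ε * 1 * 1 := by
        gcongr
      have c2 : ‖Φ' σ‖ * ‖B (subBox σ p h) τ‖ * ‖Φ (subPut σ p τ) - Φ' (subPut σ p τ)‖ ≤
          1 * 1 * ε := by
        gcongr
      linarith
    refine (Finset.sum_le_sum hc2).trans ?_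
    rw [Finset.sum_const, nsmul_eq_mul, Finset.card_univ]
    have := card_box d m r (by omega)
    gcongr
  refine (Finset.sum_le_sum hc).trans ?_
  rw [Finset.sum_const, nsmul_eq_mul, Finset.card_univ]

theorem net : StmNet := by
  intro d m δ hδ
  set S : Set (BConf d m → ℂ) := {Φ | nrm Φ = 1} with hS
  have hcl : IsClosed S := by
    have : Continuous (fun Φ : BConf d m → ℂ => nrm Φ) := by
      unfold nrm
      fun_prop
    exact isClosed_eq this continuous_const
  have hbd : Bornology.IsBounded S := by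
    rw [isBounded_iff_forall_norm_le]
    refine ⟨1, fun Φ hΦ => ?_⟩
    rw [pi_norm_le_iff_of_nonneg zero_le_one]
    exact fun σ => le_one_of_nrm hΦ σ
  have hcp : IsCompact S := Metric.isCompact_of_isClosed_isBounded hcl hbd
  set A : ℝ := (Fintype.card (BConf d m) : ℝ) * (((d : ℝ) + 1) ^ (m * m) * 2) with hA
  have hA0 : 0 ≤ A := by positivity
  have he : 0 < δ / (A + 1) := by positivity
  obtain ⟨t, htS, htf, hcov⟩ := hcp.finite_cover_balls he
  have := htf.fintype
  refine ⟨Fintype.card t, fun k => ((Fintype.equivFin t).symm k : BConf d m → ℂ), ?_, ?_⟩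
  · intro k
    exact htS ((Fintype.equivFin t).symm k).2
  · intro Φ hΦ
    obtain ⟨x, hx⟩ := Set.mem_iUnion.1 (hcov hΦ)
    obtain ⟨hxt, hx⟩ := Set.mem_iUnion.1 hx
    refine ⟨Fintype.equivFin t ⟨x, hxt⟩, ?_⟩
    intro r p h B hB
    simp only [Equiv.symm_apply_apply]
    have hd : ∀ σ, ‖x σ - Φ σ‖ ≤ δ / (A + 1) := by
      intro σ
      have h1 := norm_le_pi_norm (x - Φ) σ
      rw [Metric.mem_ball, dist_comm, dist_eq_norm] at hx
      exact h1.trans hx.le
    refine (lip (htS hxt) hΦ he.le hd p h B hB).trans ?_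
    have e1 : (Fintype.card (BConf d m) : ℝ) * (((d : ℝ) + 1) ^ (m * m) * (2 * (δ / (A + 1)))) =
        A * δ / (A + 1) := by
      rw [hA]; ring
    rw [e1, div_le_iff₀ (by positivity)]
    nlinarith

end Pool.Agent.Y585.PE
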